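import Mathlib

/-!
# MP_26769e_al : the nilpotence class of a 2-nilpotent restricted Lie algebra is not determined
by its restricted enveloping algebra (characteristic 2)

For `t` in a field `F` of characteristic `2` let `A t` be the restricted Lie algebra with basis
`x, y, u, v, z, c, d, w` and nonzero brackets and squares
`[x,y] = z`, `[x,u] = c`, `[y,v] = c`, `[x,z] = t d`, `[w,y] = t d`, `x^[2] = w`, `c^[2] = d`.
The class of `A 0` is `2`, the class of `A 1` is `3`.  The isomorphism `u(A 1) ≅ u(A 0)` sends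
`x` to `x + u v`.
-/

set_option linter.unusedSimpArgs false
set_option linter.unnecessarySeqFocus false

namespace Pool.Agent.Results.MP_26769e_al.ClassNotDetermined

universe u v

/-- A restricted Lie algebra over a field `F` of characteristic `2`: a Lie algebra `L` with a
map `q`, `q x = x^[2]`, satisfying Jacobson's axioms for `p = 2`:
`[x^[2], y] = [x, [x, y]]`, `(r x)^[2] = r^2 x^[2]` and `(x + y)^[2] = x^[2] + y^[2] + [x, y]`. -/
structure IsTwoMap (F : Type u) [Field F] (L : Type v) [LieRing L] [LieAlgebra F L]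
    (q : L → L) : Prop where
  ad_sq : ∀ x y : L, ⁅q x, y⁆ = ⁅x, ⁅x, y⁆⁆
  smul : ∀ (r : F) (x : L), q (r • x) = (r ^ 2) • q x
  add : ∀ x y : L, q (x + y) = q x + q y + ⁅x, y⁆

/-- `L` is `2`-nilpotent: for every `x` some iterate of the `2`-map vanishes at `x`. -/
def IsPNilpotent {L : Type v} [Zero L] (q : L → L) : Prop :=
  ∀ x : L, ∃ n : ℕ, 1 ≤ n ∧ q^[n] x = 0

/-- The relations `x * x = x^[2]`, `x ∈ L`, in the universal enveloping algebra. -/
inductive Rel (F : Type u) [Field F] (L : Type v) [LieRing L] [LieAlgebra F L]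
    (q : L → L) : UniversalEnvelopingAlgebra F L → UniversalEnvelopingAlgebra F L → Prop
  | sq (x : L) : Rel F L q (UniversalEnvelopingAlgebra.ι F x * UniversalEnvelopingAlgebra.ι F x)
      (UniversalEnvelopingAlgebra.ι F (q x))

/-- The restricted enveloping algebra `u(L) = U(L)/(x^2 - x^[2] : x ∈ L)` (characteristic 2). -/
abbrev RestrictedEnveloping (F : Type u) [Field F] (L : Type v) [LieRing L] [LieAlgebra F L]
    (q : L → L) : Type _ :=
  RingQuot (Rel F L q)

/-- The underlying vector space of `A t`: eight coordinates. -/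
@[ext] structure A (F : Type u) (t : F) where
  x : F
  y : F
  u : F
  v : F
  z : F
  c : F
  d : F
  w : F

section

variable {F : Type u} [Field F] {t : F}

instance : Zero (A F t) := ⟨⟨0, 0, 0, 0, 0, 0, 0, 0⟩⟩
instance : Add (A F t) := ⟨fun a b => ⟨a.x + b.x, a.y + b.y, a.u + b.u, a.v + b.v, a.z + b.z,
  a.c + b.c, a.d + b.d, a.w + b.w⟩⟩
instance : Neg (A F t) := ⟨fun a => ⟨-a.x, -a.y, -a.u, -a.v, -a.z, -a.c, -a.d, -a.w⟩⟩
instance : SMul F (A F t) := ⟨fun r a => ⟨r * a.x, r * a.y, r * a.u, r * a.v, r * a.z,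
  r * a.c, r * a.d, r * a.w⟩⟩

@[simp] lemma zero_x : (0 : A F t).x = 0 := rfl
@[simp] lemma zero_y : (0 : A F t).y = 0 := rfl
@[simp] lemma zero_u : (0 : A F t).u = 0 := rfl
@[simp] lemma zero_v : (0 : A F t).v = 0 := rfl
@[simp] lemma zero_z : (0 : A F t).z = 0 := rfl
@[simp] lemma zero_c : (0 : A F t).c = 0 := rfl
@[simp] lemma zero_d : (0 : A F t).d = 0 := rfl
@[simp] lemma zero_w : (0 : A F t).w = 0 := rfl
@[simp] lemma add_x (a b : A F t) : (a + b).x = a.x + b.x := rfl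
@[simp] lemma add_y (a b : A F t) : (a + b).y = a.y + b.y := rfl
@[simp] lemma add_u (a b : A F t) : (a + b).u = a.u + b.u := rfl
@[simp] lemma add_v (a b : A F t) : (a + b).v = a.v + b.v := rfl
@[simp] lemma add_z (a b : A F t) : (a + b).z = a.z + b.z := rfl
@[simp] lemma add_c (a b : A F t) : (a + b).c = a.c + b.c := rfl
@[simp] lemma add_d (a b : A F t) : (a + b).d = a.d + b.d := rfl
@[simp] lemma add_w (a b : A F t) : (a + b).w = a.w + b.w := rfl
@[simp] lemma neg_x (a : A F t) : (-a).x = -a.x := rfl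
@[simp] lemma neg_y (a : A F t) : (-a).y = -a.y := rfl
@[simp] lemma neg_u (a : A F t) : (-a).u = -a.u := rfl
@[simp] lemma neg_v (a : A F t) : (-a).v = -a.v := rfl
@[simp] lemma neg_z (a : A F t) : (-a).z = -a.z := rfl
@[simp] lemma neg_c (a : A F t) : (-a).c = -a.c := rfl
@[simp] lemma neg_d (a : A F t) : (-a).d = -a.d := rfl
@[simp] lemma neg_w (a : A F t) : (-a).w = -a.w := rfl
@[simp] lemma smul_x (r : F) (a : A F t) : (r • a).x = r * a.x := rfl
@[simp] lemma smul_y (r : F) (a : A F t) : (r • a).y = r * a.y := rfl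
@[simp] lemma smul_u (r : F) (a : A F t) : (r • a).u = r * a.u := rfl
@[simp] lemma smul_v (r : F) (a : A F t) : (r • a).v = r * a.v := rfl
@[simp] lemma smul_z (r : F) (a : A F t) : (r • a).z = r * a.z := rfl
@[simp] lemma smul_c (r : F) (a : A F t) : (r • a).c = r * a.c := rfl
@[simp] lemma smul_d (r : F) (a : A F t) : (r • a).d = r * a.d := rfl
@[simp] lemma smul_w (r : F) (a : A F t) : (r • a).w = r * a.w := rfl

instance : AddCommGroup (A F t) where
  add_assoc a b c := by ext <;> simp [add_assoc]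
  zero_add a := by ext <;> simp
  add_zero a := by ext <;> simp
  add_comm a b := by ext <;> simp [add_comm]
  neg_add_cancel a := by ext <;> simp
  nsmul := nsmulRec
  zsmul := zsmulRec

instance : Module F (A F t) where
  one_smul a := by ext <;> simp
  mul_smul r s a := by ext <;> simp [mul_assoc]
  smul_zero r := by ext <;> simp
  smul_add r a b := by ext <;> simp [mul_add]
  add_smul r s a := by ext <;> simp [add_mul]
  zero_smul a := by ext <;> simp

/-- The bracket of `A t`: `[x,y] = z`, `[x,u] = c`, `[y,v] = c`, `[x,z] = t d`,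
`[w,y] = t d`. -/
instance : Bracket (A F t) (A F t) := ⟨fun a b => ⟨0, 0, 0, 0, a.x * b.y - a.y * b.x,
  (a.x * b.u - a.u * b.x) + (a.y * b.v - a.v * b.y),
  t * ((a.x * b.z - a.z * b.x) + (a.w * b.y - a.y * b.w)), 0⟩⟩

@[simp] lemma lie_x (a b : A F t) : ⁅a, b⁆.x = 0 := rfl
@[simp] lemma lie_y (a b : A F t) : ⁅a, b⁆.y = 0 := rfl
@[simp] lemma lie_u (a b : A F t) : ⁅a, b⁆.u = 0 := rfl
@[simp] lemma lie_v (a b : A F t) : ⁅a, b⁆.v = 0 := rfl
@[simp] lemma lie_z (a b : A F t) : ⁅a, b⁆.z = a.x * b.y - a.y * b.x := rfl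
@[simp] lemma lie_c (a b : A F t) :
    ⁅a, b⁆.c = (a.x * b.u - a.u * b.x) + (a.y * b.v - a.v * b.y) := rfl
@[simp] lemma lie_d (a b : A F t) :
    ⁅a, b⁆.d = t * ((a.x * b.z - a.z * b.x) + (a.w * b.y - a.y * b.w)) := rfl
@[simp] lemma lie_w (a b : A F t) : ⁅a, b⁆.w = 0 := rfl

instance : LieRing (A F t) where
  add_lie a b c := by ext <;> simp <;> ring
  lie_add a b c := by ext <;> simp <;> ring
  lie_self a := by ext <;> simp <;> ring_nf <;> simp
  leibniz_lie a b c := by ext <;> simp <;> ring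

instance : LieAlgebra F (A F t) where
  lie_smul r a b := by ext <;> simp <;> ring

/-- The `2`-map of `A t`: `x^[2] = w`, `c^[2] = d`. -/
def q (a : A F t) : A F t :=
  ⟨0, 0, 0, 0, a.x * a.y, a.x * a.u + a.y * a.v, a.c ^ 2 + t * (a.x * a.z + a.w * a.y),
    a.x ^ 2⟩

@[simp] lemma q_x (a : A F t) : (q a).x = 0 := rfl
@[simp] lemma q_y (a : A F t) : (q a).y = 0 := rfl
@[simp] lemma q_u (a : A F t) : (q a).u = 0 := rfl
@[simp] lemma q_v (a : A F t) : (q a).v = 0 := rfl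
@[simp] lemma q_z (a : A F t) : (q a).z = a.x * a.y := rfl
@[simp] lemma q_c (a : A F t) : (q a).c = a.x * a.u + a.y * a.v := rfl
@[simp] lemma q_d (a : A F t) : (q a).d = a.c ^ 2 + t * (a.x * a.z + a.w * a.y) := rfl
@[simp] lemma q_w (a : A F t) : (q a).w = a.x ^ 2 := rfl

lemma isTwoMap [CharP F 2] : IsTwoMap F (A F t) q where
  ad_sq a b := by
    ext <;> simp only [lie_x, lie_y, lie_u, lie_v, lie_z, lie_c, lie_d, lie_w, q_x, q_y, q_u,
      q_v, q_z, q_c, q_d, q_w] <;> ring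
  smul r a := by ext <;> simp <;> ring
  add a b := by ext <;> simp [CharTwo.sub_eq_add, CharTwo.add_sq] <;> ring

lemma isPNilpotent : IsPNilpotent (q (F := F) (t := t)) := by
  intro a
  refine ⟨3, by norm_num, ?_⟩
  simp only [Function.iterate_succ, Function.iterate_zero, Function.comp, id]
  ext <;> simp

end

section algebra

variable {F : Type u} [Field F] {R : Type v} [Ring R] [Algebra F R]

/-- The relations satisfied by the images of the basis of `A t` in an associative algebra. -/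
structure Rel8 (t : F) (X Y U V Z C D W : R) : Prop where
  xy : Y * X = X * Y + Z
  xu : U * X = X * U + C
  xv : V * X = X * V
  xz : Z * X = X * Z + t • D
  xc : C * X = X * C
  xd : D * X = X * D
  xw : W * X = X * W
  yu : U * Y = Y * U
  yv : V * Y = Y * V + C
  yz : Z * Y = Y * Z
  yc : C * Y = Y * C
  yd : D * Y = Y * D
  yw : W * Y = Y * W + t • D
  uv : V * U = U * V
  uz : Z * U = U * Z
  uc : C * U = U * C
  ud : D * U = U * D
  uw : W * U = U * W
  vz : Z * V = V * Z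
  vc : C * V = V * C
  vd : D * V = V * D
  vw : W * V = V * W
  zc : C * Z = Z * C
  zd : D * Z = Z * D
  zw : W * Z = Z * W
  cd : D * C = C * D
  cw : W * C = C * W
  dw : W * D = D * W
  xx : X * X = W
  yy : Y * Y = 0
  uu : U * U = 0
  vv : V * V = 0
  zz : Z * Z = 0
  cc : C * C = D
  dd : D * D = 0
  ww : W * W = 0

lemma swap_assoc {a b c : R} (h : b * a = a * b + c) (r : R) :
    b * (a * r) = a * (b * r) + c * r := by
  rw [← mul_assoc, h, add_mul, mul_assoc]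

lemma comm_assoc {a b : R} (h : b * a = a * b) (r : R) : b * (a * r) = a * (b * r) := by
  rw [← mul_assoc, h, mul_assoc]

lemma sq_assoc {a b : R} (h : a * a = b) (r : R) : a * (a * r) = b * r := by
  rw [← mul_assoc, h]

/-- The substitution `x ↦ x + l u v`, `z ↦ z + l u c`, `w ↦ w + l c v`. -/
lemma Rel8.subst (h2 : ∀ r : R, r + r = 0) {t s l : F} (hs : s = t + l)
    {X Y U V Z C D W : R} (h : Rel8 t X Y U V Z C D W) :
    Rel8 s (X + l • (U * V)) Y U V (Z + l • (U * C)) C D (W + l • (C * V)) := by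
  subst hs
  have h3 : ∀ r r' : R, r + (r + r') = r' := by
    intro r r'
    rw [← add_assoc, h2, zero_add]
  obtain ⟨xy, xu, xv, xz, xc, xd, xw, yu, yv, yz, yc, yd, yw, uv, uz, uc, ud, uw, vz, vc, vd, vw,
    zc, zd, zw, cd, cw, dw, xx, yy, uu, vv, zz, cc, dd, ww⟩ := h
  constructor <;>
  simp only [mul_add, add_mul, smul_mul_assoc, mul_smul_comm, mul_assoc, smul_add, smul_smul,
    add_smul, mul_zero, zero_mul, smul_zero, add_zero, zero_add,
    xy, xu, xv, xz, xc, xd, xw, yu, yv, yz, yc, yd, yw, uv, uz, uc, ud, uw, vz, vc, vd, vw,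
    zc, zd, zw, cd, cw, dw, xx, yy, uu, vv, zz, cc, dd, ww,
    swap_assoc xy, swap_assoc xu, comm_assoc xv, swap_assoc xz, comm_assoc xc, comm_assoc xd,
    comm_assoc xw, comm_assoc yu, swap_assoc yv, comm_assoc yz, comm_assoc yc, comm_assoc yd,
    swap_assoc yw, comm_assoc uv, comm_assoc uz, comm_assoc uc, comm_assoc ud, comm_assoc uw,
    comm_assoc vz, comm_assoc vc, comm_assoc vd, comm_assoc vw, comm_assoc zc, comm_assoc zd,
    comm_assoc zw, comm_assoc cd, comm_assoc cw, comm_assoc dw, sq_assoc xx, sq_assoc yy,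
    sq_assoc uu, sq_assoc vv, sq_assoc zz, sq_assoc cc, sq_assoc dd, sq_assoc ww,
    add_assoc, add_comm, add_left_comm, h2, h3]

/-- The linear map `A t → R` with prescribed values on the basis. -/
def psi (t : F) (X Y U V Z C D W : R) : A F t →ₗ[F] R where
  toFun a := a.x • X + a.y • Y + a.u • U + a.v • V + a.z • Z + a.c • C + a.d • D + a.w • W
  map_add' a b := by
    simp only [add_x, add_y, add_u, add_v, add_z, add_c, add_d, add_w, add_smul]
    abel
  map_smul' r a := by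
    simp only [smul_x, smul_y, smul_u, smul_v, smul_z, smul_c, smul_d, smul_w, mul_smul,
      smul_add, RingHom.id_apply]

lemma psi_apply (t : F) (X Y U V Z C D W : R) (a : A F t) : psi t X Y U V Z C D W a =
    a.x • X + a.y • Y + a.u • U + a.v • V + a.z • Z + a.c • C + a.d • D + a.w • W := rfl

lemma lie_of_swap (h2 : ∀ r : R, r + r = 0) {a b c : R} (h : b * a = a * b + c) :
    a * b - b * a = c := by
  rw [h]
  have : -c = c := by
    rw [neg_eq_iff_add_eq_zero]; exact h2 c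
  rw [sub_add_eq_sub_sub, sub_self, zero_sub, this]

/-- The Lie algebra homomorphism attached to a solution of the relations. -/
lemma psi_lie (h2 : ∀ r : R, r + r = 0) {t : F} {X Y U V Z C D W : R}
    (h : Rel8 t X Y U V Z C D W) (a b : A F t) :
    psi t X Y U V Z C D W ⁅a, b⁆ = ⁅psi t X Y U V Z C D W a, psi t X Y U V Z C D W b⁆ := by
  have hneg : ∀ r : R, -r = r := fun r => by
    rw [neg_eq_iff_add_eq_zero]; exact h2 r
  have c1 : ∀ {a b c : R}, b * a = a * b + c → ⁅a, b⁆ = c := fun h => lie_of_swap h2 h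
  have c2 : ∀ {a b c : R}, b * a = a * b + c → ⁅b, a⁆ = c := fun h => by
    rw [LieRing.of_associative_ring_bracket, h, add_sub_cancel_left]
  have c3 : ∀ {a b : R}, b * a = a * b → ⁅a, b⁆ = 0 := fun h => by
    rw [LieRing.of_associative_ring_bracket, h, sub_self]
  have c4 : ∀ {a b : R}, b * a = a * b → ⁅b, a⁆ = 0 := fun h => by
    rw [LieRing.of_associative_ring_bracket, h, sub_self]
  obtain ⟨xy, xu, xv, xz, xc, xd, xw, yu, yv, yz, yc, yd, yw, uv, uz, uc, ud, uw, vz, vc, vd, vw,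
    zc, zd, zw, cd, cw, dw, xx, yy, uu, vv, zz, cc, dd, ww⟩ := h
  rw [psi_apply, psi_apply, psi_apply]
  have la : ∀ a b c : R, ⁅a + b, c⁆ = ⁅a, c⁆ + ⁅b, c⁆ := fun a b c => by
    simp only [LieRing.of_associative_ring_bracket, add_mul, mul_add]; abel
  have al : ∀ a b c : R, ⁅a, b + c⁆ = ⁅a, b⁆ + ⁅a, c⁆ := fun a b c => by
    simp only [LieRing.of_associative_ring_bracket, add_mul, mul_add]; abel
  have ls : ∀ (r : F) (b c : R), ⁅r • b, c⁆ = r • ⁅b, c⁆ := fun r b c => by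
    simp only [LieRing.of_associative_ring_bracket, smul_mul_assoc, mul_smul_comm, smul_sub]
  have sl : ∀ (r : F) (b c : R), ⁅b, r • c⁆ = r • ⁅b, c⁆ := fun r b c => by
    simp only [LieRing.of_associative_ring_bracket, smul_mul_assoc, mul_smul_comm, smul_sub]
  have l0 : ∀ b : R, ⁅b, b⁆ = 0 := fun b => by
    simp only [LieRing.of_associative_ring_bracket, sub_self]
  simp only [la, al, ls, sl, l0, lie_x, lie_y, lie_u, lie_v, lie_z,
    lie_c, lie_d, lie_w,
    c1 xy, c1 xu, c3 xv, c1 xz, c3 xc, c3 xd, c3 xw, c3 yu, c1 yv, c3 yz, c3 yc, c3 yd, c1 yw,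
    c3 uv, c3 uz, c3 uc, c3 ud, c3 uw, c3 vz, c3 vc, c3 vd, c3 vw, c3 zc, c3 zd, c3 zw, c3 cd,
    c3 cw, c3 dw,
    c2 xy, c2 xu, c4 xv, c2 xz, c4 xc, c4 xd, c4 xw, c4 yu, c2 yv, c4 yz, c4 yc, c4 yd, c2 yw,
    c4 uv, c4 uz, c4 uc, c4 ud, c4 uw, c4 vz, c4 vc, c4 vd, c4 vw, c4 zc, c4 zd, c4 zw, c4 cd,
    c4 cw, c4 dw, smul_zero, zero_smul, add_zero, zero_add]
  have e : ∀ (r s : F) (x : R), (r - s) • x = (r + s) • x := fun r s x => by
    rw [sub_smul, add_smul, sub_eq_add_neg, hneg]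
  have e1 : ∀ (r s r' s' : F) (x : R),
      ((r - s) + (r' - s')) • x = (r + s + (r' + s')) • x := fun r s r' s' x => by
    rw [add_smul, e, e, ← add_smul]
  rw [e, e1, mul_smul, e1]
  module

lemma decomp {F : Type u} [Field F] {t : F} (a : A F t) :
    a = a.x • (⟨1, 0, 0, 0, 0, 0, 0, 0⟩ : A F t) + a.y • (⟨0, 1, 0, 0, 0, 0, 0, 0⟩ : A F t) +
      a.u • (⟨0, 0, 1, 0, 0, 0, 0, 0⟩ : A F t) + a.v • (⟨0, 0, 0, 1, 0, 0, 0, 0⟩ : A F t) +
      a.z • (⟨0, 0, 0, 0, 1, 0, 0, 0⟩ : A F t) + a.c • (⟨0, 0, 0, 0, 0, 1, 0, 0⟩ : A F t) +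
      a.d • (⟨0, 0, 0, 0, 0, 0, 1, 0⟩ : A F t) + a.w • (⟨0, 0, 0, 0, 0, 0, 0, 1⟩ : A F t) := by
  ext <;> simp

/-- The squares: `psi a * psi a = psi (a^[2])`. -/
lemma psi_sq [CharP F 2] (h2 : ∀ r : R, r + r = 0) {t : F} {X Y U V Z C D W : R}
    (h : Rel8 t X Y U V Z C D W) (a : A F t) :
    psi t X Y U V Z C D W a * psi t X Y U V Z C D W a = psi t X Y U V Z C D W (q a) := by
  have hneg : ∀ r : R, -r = r := fun r => by
    rw [neg_eq_iff_add_eq_zero]; exact h2 r
  have hl := psi_lie h2 h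
  have hadd : ∀ a b : A F t,
      psi t X Y U V Z C D W a * psi t X Y U V Z C D W a = psi t X Y U V Z C D W (q a) →
      psi t X Y U V Z C D W b * psi t X Y U V Z C D W b = psi t X Y U V Z C D W (q b) →
      psi t X Y U V Z C D W (a + b) * psi t X Y U V Z C D W (a + b) =
        psi t X Y U V Z C D W (q (a + b)) := by
    intro a b ha hb
    rw [isTwoMap.add, map_add, map_add, map_add, hl, ← ha, ← hb,
      LieRing.of_associative_ring_bracket, sub_eq_add_neg, hneg]
    noncomm_ring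
  have hsmul : ∀ (r : F) (a : A F t),
      psi t X Y U V Z C D W a * psi t X Y U V Z C D W a = psi t X Y U V Z C D W (q a) →
      psi t X Y U V Z C D W (r • a) * psi t X Y U V Z C D W (r • a) =
        psi t X Y U V Z C D W (q (r • a)) := by
    intro r a ha
    rw [isTwoMap.smul, map_smul, map_smul, ← ha, smul_mul_smul_comm, pow_two]
  rw [decomp a]
  refine hadd _ _ (hadd _ _ (hadd _ _ (hadd _ _ (hadd _ _ (hadd _ _ (hadd _ _ (hsmul _ _ ?_)
    (hsmul _ _ ?_)) (hsmul _ _ ?_)) (hsmul _ _ ?_)) (hsmul _ _ ?_)) (hsmul _ _ ?_))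
    (hsmul _ _ ?_)) (hsmul _ _ ?_) <;>
  simp [psi_apply, h.xx, h.yy, h.uu, h.vv, h.zz, h.cc, h.dd, h.ww]

end algebra

section universal

open UniversalEnvelopingAlgebra

attribute [local instance 100] LieRing.ofAssociativeRing

variable {F : Type u} [Field F]

lemma add_self_eq_zero' [CharP F 2] {R : Type v} [Ring R] [Algebra F R] (r : R) : r + r = 0 := by
  have : r + r = (2 : F) • r := by rw [two_smul]
  rw [this, CharTwo.two_eq_zero, zero_smul]

/-- The canonical map `L → u(L)`. -/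
noncomputable def J (F : Type u) [Field F] (L : Type v) [LieRing L] [LieAlgebra F L] (q : L → L)
    (a : L) : RestrictedEnveloping F L q :=
  RingQuot.mkAlgHom F (Rel F L q) (ι F a)

lemma J_add {L : Type v} [LieRing L] [LieAlgebra F L] (q : L → L) (a b : L) :
    J F L q (a + b) = J F L q a + J F L q b := by
  simp [J]

lemma J_smul {L : Type v} [LieRing L] [LieAlgebra F L] (q : L → L) (r : F) (a : L) :
    J F L q (r • a) = r • J F L q a := by
  simp [J]

lemma J_zero {L : Type v} [LieRing L] [LieAlgebra F L] (q : L → L) :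
    J F L q 0 = 0 := by
  simp [J]

lemma J_sq {L : Type v} [LieRing L] [LieAlgebra F L] (q : L → L) (a : L) :
    J F L q a * J F L q a = J F L q (q a) := by
  rw [J, ← map_mul]
  exact RingQuot.mkAlgHom_rel F (Rel.sq a)

lemma J_mul [CharP F 2] {L : Type v} [LieRing L] [LieAlgebra F L] (q : L → L) (a b : L) :
    J F L q b * J F L q a = J F L q a * J F L q b + J F L q ⁅a, b⁆ := by
  have h : J F L q ⁅a, b⁆ = J F L q a * J F L q b - J F L q b * J F L q a := by
    rw [J, LieHom.map_lie, LieRing.of_associative_ring_bracket, map_sub, map_mul, map_mul]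
    rfl
  rw [h, ← add_sub_assoc, add_self_eq_zero' (F := F), zero_sub,
    neg_eq_iff_add_eq_zero.mpr (add_self_eq_zero' (F := F) _)]

lemma J_comm [CharP F 2] {L : Type v} [LieRing L] [LieAlgebra F L] (q : L → L) (a b : L) (h : ⁅a, b⁆ = 0) :
    J F L q b * J F L q a = J F L q a * J F L q b := by
  rw [J_mul, h, J_zero, add_zero]

/-- The Lie algebra homomorphism `A t → R` attached to a solution of the relations. -/
def lieHom [CharP F 2] {R : Type v} [Ring R] [Algebra F R] {t : F} {X Y U V Z C D W : R}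
    (h : Rel8 t X Y U V Z C D W) : A F t →ₗ⁅F⁆ R :=
  { psi t X Y U V Z C D W with
    map_lie' := fun {a b} => psi_lie (add_self_eq_zero' (F := F)) h a b }

/-- The algebra homomorphism `u(A t) → R` attached to a solution of the relations. -/
noncomputable def lift8 [CharP F 2] {R : Type v} [Ring R] [Algebra F R] {t : F}
    {X Y U V Z C D W : R} (h : Rel8 t X Y U V Z C D W) :
    RestrictedEnveloping F (A F t) q →ₐ[F] R :=
  RingQuot.liftAlgHom F ⟨UniversalEnvelopingAlgebra.lift F (lieHom h), by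
    rintro _ _ ⟨a⟩
    rw [map_mul, UniversalEnvelopingAlgebra.lift_ι_apply, UniversalEnvelopingAlgebra.lift_ι_apply]
    exact psi_sq (add_self_eq_zero' (F := F)) h a⟩

lemma lift8_J [CharP F 2] {R : Type v} [Ring R] [Algebra F R] {t : F}
    {X Y U V Z C D W : R} (h : Rel8 t X Y U V Z C D W) (a : A F t) :
    lift8 h (J F (A F t) q a) = psi t X Y U V Z C D W a := by
  rw [lift8, J, RingQuot.liftAlgHom_mkAlgHom_apply, UniversalEnvelopingAlgebra.lift_ι_apply]
  rfl

lemma hom_ext8 {R : Type v} [Ring R] [Algebra F R] {L : Type v} [LieRing L] [LieAlgebra F L]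
    {q : L → L} {f g : RestrictedEnveloping F L q →ₐ[F] R}
    (h : ∀ a : L, f (J F L q a) = g (J F L q a)) : f = g := by
  apply RingQuot.ringQuot_ext'
  apply UniversalEnvelopingAlgebra.hom_ext
  ext a
  exact h a

lemma J_mul' [CharP F 2] {L : Type v} [LieRing L] [LieAlgebra F L] {q : L → L} {a b c : L}
    (h : ⁅a, b⁆ = c) : J F L q b * J F L q a = J F L q a * J F L q b + J F L q c := by
  rw [J_mul, h]

lemma J_mul_smul [CharP F 2] {L : Type v} [LieRing L] [LieAlgebra F L] {q : L → L} {a b c : L}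
    {r : F} (h : ⁅a, b⁆ = r • c) :
    J F L q b * J F L q a = J F L q a * J F L q b + r • J F L q c := by
  rw [J_mul, h, J_smul]

lemma J_sq' {L : Type v} [LieRing L] [LieAlgebra F L] {q : L → L} {a b : L} (h : q a = b) :
    J F L q a * J F L q a = J F L q b := by
  rw [J_sq, h]

lemma J_sq_zero {L : Type v} [LieRing L] [LieAlgebra F L] {q : L → L} {a : L} (h : q a = 0) :
    J F L q a * J F L q a = 0 := by
  rw [J_sq, h, J_zero]

/-- The images of the basis of `A t` in `u(A t)` satisfy the relations. -/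
lemma J_rel8 [CharP F 2] (t : F) : Rel8 t
    (J F (A F t) q ⟨1, 0, 0, 0, 0, 0, 0, 0⟩) (J F (A F t) q ⟨0, 1, 0, 0, 0, 0, 0, 0⟩)
    (J F (A F t) q ⟨0, 0, 1, 0, 0, 0, 0, 0⟩) (J F (A F t) q ⟨0, 0, 0, 1, 0, 0, 0, 0⟩)
    (J F (A F t) q ⟨0, 0, 0, 0, 1, 0, 0, 0⟩) (J F (A F t) q ⟨0, 0, 0, 0, 0, 1, 0, 0⟩)
    (J F (A F t) q ⟨0, 0, 0, 0, 0, 0, 1, 0⟩) (J F (A F t) q ⟨0, 0, 0, 0, 0, 0, 0, 1⟩) := by
  have hneg : ∀ r : F, -r = r := CharTwo.neg_eq
  constructor <;>
  first
  | exact J_comm _ _ _ (by ext <;> simp)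
  | exact J_sq_zero (by ext <;> simp)
  | exact J_sq' (by ext <;> simp)
  | exact J_mul' (by ext <;> simp)
  | exact J_mul_smul (by ext <;> simp [hneg])

lemma J_eq_psi (t : F) (a : A F t) : J F (A F t) q a = psi t
    (J F (A F t) q ⟨1, 0, 0, 0, 0, 0, 0, 0⟩) (J F (A F t) q ⟨0, 1, 0, 0, 0, 0, 0, 0⟩)
    (J F (A F t) q ⟨0, 0, 1, 0, 0, 0, 0, 0⟩) (J F (A F t) q ⟨0, 0, 0, 1, 0, 0, 0, 0⟩)
    (J F (A F t) q ⟨0, 0, 0, 0, 1, 0, 0, 0⟩) (J F (A F t) q ⟨0, 0, 0, 0, 0, 1, 0, 0⟩)
    (J F (A F t) q ⟨0, 0, 0, 0, 0, 0, 1, 0⟩) (J F (A F t) q ⟨0, 0, 0, 0, 0, 0, 0, 1⟩) a := by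
  conv_lhs => rw [decomp a]
  simp only [J_add, J_smul, psi_apply]

/-- The homomorphism `u(A s) → u(A t)`, `s = t + l`, with `x ↦ x + l u v`. -/
noncomputable def map8 [CharP F 2] {t s l : F} (h : s = t + l) :
    RestrictedEnveloping F (A F s) q →ₐ[F] RestrictedEnveloping F (A F t) q :=
  lift8 ((J_rel8 t).subst (add_self_eq_zero' (F := F)) h)

lemma map8_J [CharP F 2] {t s l : F} (h : s = t + l) (a : A F s) :
    map8 h (J F (A F s) q a) = psi s
    (J F (A F t) q ⟨1, 0, 0, 0, 0, 0, 0, 0⟩ +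
      l • (J F (A F t) q ⟨0, 0, 1, 0, 0, 0, 0, 0⟩ * J F (A F t) q ⟨0, 0, 0, 1, 0, 0, 0, 0⟩))
    (J F (A F t) q ⟨0, 1, 0, 0, 0, 0, 0, 0⟩)
    (J F (A F t) q ⟨0, 0, 1, 0, 0, 0, 0, 0⟩) (J F (A F t) q ⟨0, 0, 0, 1, 0, 0, 0, 0⟩)
    (J F (A F t) q ⟨0, 0, 0, 0, 1, 0, 0, 0⟩ +
      l • (J F (A F t) q ⟨0, 0, 1, 0, 0, 0, 0, 0⟩ * J F (A F t) q ⟨0, 0, 0, 0, 0, 1, 0, 0⟩))
    (J F (A F t) q ⟨0, 0, 0, 0, 0, 1, 0, 0⟩)
    (J F (A F t) q ⟨0, 0, 0, 0, 0, 0, 1, 0⟩)
    (J F (A F t) q ⟨0, 0, 0, 0, 0, 0, 0, 1⟩ +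
      l • (J F (A F t) q ⟨0, 0, 0, 0, 0, 1, 0, 0⟩ * J F (A F t) q ⟨0, 0, 0, 1, 0, 0, 0, 0⟩)) a :=
  lift8_J _ a

lemma map8_comp [CharP F 2] {t s l : F} (h : s = t + l) (h' : t = s + l)
    (a : A F t) : map8 h (map8 h' (J F (A F t) q a)) = J F (A F t) q a := by
  have h3 : ∀ r r' : RestrictedEnveloping F (A F t) q, r + r' + r' = r := by
    intro r r'
    rw [add_assoc, add_self_eq_zero' (F := F), add_zero]
  rw [J_eq_psi t a, ← J_eq_psi t a, map8_J h' a, psi_apply, J_eq_psi t a, psi_apply]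
  simp only [map_add, map_smul, map_mul, map8_J h]
  simp only [psi_apply, one_smul, zero_smul, add_zero, zero_add, h3]

/-- `u(A s) ≅ u(A t)` for all `s, t`. -/
noncomputable def equiv8 [CharP F 2] (t s : F) :
    RestrictedEnveloping F (A F s) q ≃ₐ[F] RestrictedEnveloping F (A F t) q :=
  have h : s = t + (s + t) := by
    rw [add_comm s t, ← add_assoc, CharTwo.add_self_eq_zero, zero_add]
  have h' : t = s + (s + t) := by
    rw [← add_assoc, CharTwo.add_self_eq_zero, zero_add]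
  AlgEquiv.ofAlgHom (map8 h) (map8 h')
    (hom_ext8 fun a => map8_comp h h' a) (hom_ext8 fun a => map8_comp h' h a)

end universal

section nilpotency

open LieModule

variable {F : Type u} [Field F]

/-- `L` is nilpotent of class `c`: `c` is the least number with `γ_{c+1}(L) = 0`
(`LieModule.lowerCentralSeries F L L k` is `γ_{k+1}(L)`). -/
def HasClass (F : Type u) [Field F] (L : Type v) [LieRing L] [LieAlgebra F L] (c : ℕ) : Prop :=
  IsLeast {k : ℕ | lowerCentralSeries F L L k = ⊥} c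

/-- The ideal spanned by `z, c, d`. -/
def N1 (t : F) : LieIdeal F (A F t) where
  carrier := {a | a.x = 0 ∧ a.y = 0 ∧ a.u = 0 ∧ a.v = 0 ∧ a.w = 0}
  add_mem' := by
    rintro a b ⟨h1, h2, h3, h4, h5⟩ ⟨h1', h2', h3', h4', h5'⟩
    simp [h1, h2, h3, h4, h5, h1', h2', h3', h4', h5']
  zero_mem' := by simp
  smul_mem' := by
    rintro r a ⟨h1, h2, h3, h4, h5⟩
    simp [h1, h2, h3, h4, h5]
  lie_mem := by
    rintro a b _
    simp

lemma mem_N1 {t : F} {a : A F t} :
    a ∈ N1 t ↔ a.x = 0 ∧ a.y = 0 ∧ a.u = 0 ∧ a.v = 0 ∧ a.w = 0 := Iff.rfl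

lemma lcs_one_le (t : F) : lowerCentralSeries F (A F t) (A F t) 1 ≤ N1 t := by
  rw [lowerCentralSeries_succ, LieSubmodule.lie_le_iff]
  intro a _ b _
  simp [mem_N1]

lemma mem_lcs_one (t : F) :
    (⟨0, 0, 0, 0, 1, 0, 0, 0⟩ : A F t) ∈ lowerCentralSeries F (A F t) (A F t) 1 := by
  have : (⟨0, 0, 0, 0, 1, 0, 0, 0⟩ : A F t) =
      ⁅(⟨1, 0, 0, 0, 0, 0, 0, 0⟩ : A F t), (⟨0, 1, 0, 0, 0, 0, 0, 0⟩ : A F t)⁆ := by
    ext <;> simp
  rw [this, lowerCentralSeries_succ]
  exact LieSubmodule.lie_mem_lie (by simp) (by simp)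

lemma lcs_one_ne (t : F) : lowerCentralSeries F (A F t) (A F t) 1 ≠ ⊥ := by
  intro h
  have h1 := mem_lcs_one t
  rw [h, LieSubmodule.mem_bot] at h1
  have := congrArg A.z h1
  simp at this

lemma lcs_two_ne : lowerCentralSeries F (A F 1) (A F 1) 2 ≠ ⊥ := by
  intro h
  have h1 : ⁅(⟨1, 0, 0, 0, 0, 0, 0, 0⟩ : A F 1), (⟨0, 0, 0, 0, 1, 0, 0, 0⟩ : A F 1)⁆ ∈
      lowerCentralSeries F (A F 1) (A F 1) 2 := by
    rw [lowerCentralSeries_succ]
    exact LieSubmodule.lie_mem_lie (by simp) (mem_lcs_one 1)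
  rw [h, LieSubmodule.mem_bot] at h1
  have := congrArg A.d h1
  simp at this

/-- `A 0` has class `2`. -/
lemma hasClass_zero : HasClass F (A F 0) 2 := by
  refine ⟨?_, fun k hk => ?_⟩
  · change lowerCentralSeries F (A F 0) (A F 0) 2 = ⊥
    rw [eq_bot_iff, lowerCentralSeries_succ, LieSubmodule.lie_le_iff]
    intro a _ b hb
    obtain ⟨h1, h2, h3, h4, h5⟩ := mem_N1.mp (lcs_one_le 0 hb)
    rw [LieSubmodule.mem_bot]
    ext <;> simp [h1, h2, h3, h4, h5]
  · by_contra hlt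
    rw [not_le] at hlt
    have hk1 : k ≤ 1 := by omega
    have h1 : lowerCentralSeries F (A F 0) (A F 0) 1 ≤ lowerCentralSeries F (A F 0) (A F 0) k :=
      antitone_lowerCentralSeries F (A F 0) (A F 0) hk1
    rw [show lowerCentralSeries F (A F 0) (A F 0) k = ⊥ from hk, le_bot_iff] at h1
    exact lcs_one_ne 0 h1

/-- The ideal spanned by `d`. -/
def N2 (t : F) : LieIdeal F (A F t) where
  carrier := {a | a.x = 0 ∧ a.y = 0 ∧ a.u = 0 ∧ a.v = 0 ∧ a.w = 0 ∧ a.z = 0 ∧ a.c = 0}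
  add_mem' := by
    rintro a b ⟨h1, h2, h3, h4, h5, h6, h7⟩ ⟨h1', h2', h3', h4', h5', h6', h7'⟩
    simp [h1, h2, h3, h4, h5, h6, h7, h1', h2', h3', h4', h5', h6', h7']
  zero_mem' := by simp
  smul_mem' := by
    rintro r a ⟨h1, h2, h3, h4, h5, h6, h7⟩
    simp [h1, h2, h3, h4, h5, h6, h7]
  lie_mem := by
    rintro a b ⟨h1, h2, h3, h4, h5, h6, h7⟩
    simp [h1, h2, h3, h4, h5, h6, h7]

lemma mem_N2 {t : F} {a : A F t} :
    a ∈ N2 t ↔ a.x = 0 ∧ a.y = 0 ∧ a.u = 0 ∧ a.v = 0 ∧ a.w = 0 ∧ a.z = 0 ∧ a.c = 0 := Iff.rfl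

lemma lcs_two_le (t : F) : lowerCentralSeries F (A F t) (A F t) 2 ≤ N2 t := by
  rw [lowerCentralSeries_succ, LieSubmodule.lie_le_iff]
  intro a _ b hb
  obtain ⟨h1, h2, h3, h4, h5⟩ := mem_N1.mp (lcs_one_le t hb)
  simp [mem_N2, h1, h2, h3, h4, h5]

/-- `A 1` has class `3`. -/
lemma hasClass_one : HasClass F (A F 1) 3 := by
  refine ⟨?_, fun k hk => ?_⟩
  · change lowerCentralSeries F (A F 1) (A F 1) 3 = ⊥
    rw [eq_bot_iff, lowerCentralSeries_succ, LieSubmodule.lie_le_iff]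
    intro a _ b hb
    obtain ⟨h1, h2, h3, h4, h5, h6, h7⟩ := mem_N2.mp (lcs_two_le 1 hb)
    rw [LieSubmodule.mem_bot]
    ext <;> simp [h1, h2, h3, h4, h5, h6, h7]
  · by_contra hlt
    rw [not_le] at hlt
    have hk1 : k ≤ 2 := by omega
    have h1 : lowerCentralSeries F (A F 1) (A F 1) 2 ≤ lowerCentralSeries F (A F 1) (A F 1) k :=
      antitone_lowerCentralSeries F (A F 1) (A F 1) hk1
    rw [show lowerCentralSeries F (A F 1) (A F 1) k = ⊥ from hk, le_bot_iff] at h1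
    exact lcs_two_ne h1

instance (t : F) : Module.Finite F (A F t) :=
  Module.Finite.of_surjective
    ({ toFun := fun f => ⟨f 0, f 1, f 2, f 3, f 4, f 5, f 6, f 7⟩
       map_add' := fun _ _ => rfl
       map_smul' := fun _ _ => rfl } : (Fin 8 → F) →ₗ[F] A F t)
    (fun a => ⟨![a.x, a.y, a.u, a.v, a.z, a.c, a.d, a.w], by ext <;> rfl⟩)

end nilpotency

/-- **Disproof of Q1 of MP_26769e_al.**  Over every field `F` of characteristic `2` there are
finite-dimensional `2`-nilpotent restricted Lie algebras `L`, `H` with `u(L) ≅ u(H)` as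
associative algebras such that `L` has nilpotence class `2` and `H` has nilpotence class `3`. -/
theorem result (F : Type u) [Field F] [CharP F 2] :
    ∃ (L H : Type u) (_ : LieRing L) (_ : LieAlgebra F L) (_ : LieRing H) (_ : LieAlgebra F H)
      (qL : L → L) (qH : H → H),
      IsTwoMap F L qL ∧ IsTwoMap F H qH ∧ Module.Finite F L ∧ Module.Finite F H ∧
      IsPNilpotent qL ∧ IsPNilpotent qH ∧
      Nonempty (RestrictedEnveloping F L qL ≃ₐ[F] RestrictedEnveloping F H qH) ∧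
      HasClass F L 2 ∧ HasClass F H 3 :=
  ⟨A F 0, A F 1, inferInstance, inferInstance, inferInstance, inferInstance, q, q,
    isTwoMap, isTwoMap, inferInstance, inferInstance, isPNilpotent, isPNilpotent,
    ⟨equiv8 1 0⟩, hasClass_zero, hasClass_one⟩

end Pool.Agent.Results.MP_26769e_al.ClassNotDetermined
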